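import Mathlib

set_option autoImplicit false
open MvPolynomial

namespace Pool.Agent.H.MP_28b0d6_al

section Reg
variable {S : Type} [CommRing S]

structure Reg (a b c : S) (I J : Ideal S) : Prop where
  r1 : ∀ f ∈ J, a * f ∈ I → f ∈ I
  r2 : ∀ f ∈ J, ∀ g ∈ J, b * f - a * g ∈ I → ∃ g' ∈ J, f - a * g' ∈ I
  r3 : ∀ f ∈ J, ∀ g ∈ J, ∀ h ∈ J, c * f - a * g - b * h ∈ I →
    ∃ g' ∈ J, ∃ h' ∈ J, f - a * g' - b * h' ∈ I

lemma Reg.refl (a b c : S) (I : Ideal S) : Reg a b c I I :=
  ⟨fun _ hf _ => hf, fun _ hf _ _ _ => ⟨0, I.zero_mem, by simpa using hf⟩,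
    fun _ hf _ _ _ _ _ => ⟨0, I.zero_mem, 0, I.zero_mem, by simpa using hf⟩⟩

lemma Reg.trans {a b c : S} {I J L : Ideal S} (hIJ : I ≤ J) (hJL : J ≤ L) (h1 : Reg a b c I J)
    (h2 : Reg a b c J L) : Reg a b c I L := by
  refine ⟨fun f hf h => h1.r1 f (h2.r1 f hf (hIJ h)) h, fun f hf g hg h => ?_,
    fun f hf g hg h hh k => ?_⟩
  · obtain ⟨g', hg', hj⟩ := h2.r2 f hf g hg (hIJ h)
    have e1 : g - b * g' ∈ J := by
      refine h2.r1 _ (L.sub_mem hg (L.mul_mem_left _ hg')) ?_
      convert J.sub_mem (J.mul_mem_left b hj) (hIJ h) using 1; ring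
    obtain ⟨g'', hg'', hi⟩ := h1.r2 _ hj _ e1 (by convert h using 1; ring)
    exact ⟨g' + g'', L.add_mem hg' (hJL hg''), by convert hi using 1; ring⟩
  · obtain ⟨g', hg', h', hh', hj⟩ := h2.r3 f hf g hg h hh (hIJ k)
    have hG : g - c * g' ∈ L := L.sub_mem hg (L.mul_mem_left _ hg')
    have hH : h - c * h' ∈ L := L.sub_mem hh (L.mul_mem_left _ hh')
    obtain ⟨g'', hg'', hj'⟩ := h2.r2 _ hH _ (L.neg_mem hG) (by
      convert J.sub_mem (J.mul_mem_left c hj) (hIJ k) using 1; ring)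
    have e1 : g - c * g' + b * g'' ∈ J := by
      refine h2.r1 _ (L.add_mem hG (L.mul_mem_left _ hg'')) ?_
      convert J.sub_mem (J.sub_mem (J.mul_mem_left c hj) (hIJ k)) (J.mul_mem_left b hj') using 1
      ring
    obtain ⟨u, hu, w, hw, hi⟩ := h1.r3 _ hj _ e1 _ hj' (by convert k using 1; ring)
    exact ⟨g' + u, L.add_mem hg' (hJL hu), h' + w, L.add_mem hh' (hJL hw),
      by convert hi using 1; ring⟩

lemma Reg.step {a b c m : S} {I J P : Ideal S} (hJ : ∀ f, f ∈ J ↔ ∃ p, f - m * p ∈ I)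
    (hP : ∀ p, m * p ∈ I ↔ p ∈ P) (h : Reg a b c P ⊤) : Reg a b c I J := by
  have hm : ∀ p, m * p ∈ J := fun p => (hJ _).2 ⟨p, by simp⟩
  refine ⟨fun f hf k => ?_, fun f hf g hg k => ?_, fun f hf g hg r hr k => ?_⟩
  · obtain ⟨p, hp⟩ := (hJ f).1 hf
    have := (hP p).2 (h.r1 p trivial ((hP _).1 (by
      convert I.sub_mem k (I.mul_mem_left a hp) using 1; ring)))
    simpa using I.add_mem hp this
  · obtain ⟨p, hp⟩ := (hJ f).1 hf
    obtain ⟨q, hq⟩ := (hJ g).1 hg
    obtain ⟨q', -, h'⟩ := h.r2 p trivial q trivial ((hP _).1 (by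
      convert I.add_mem (I.sub_mem k (I.mul_mem_left b hp)) (I.mul_mem_left a hq) using 1; ring))
    exact ⟨m * q', hm _, by convert I.add_mem hp ((hP _).2 h') using 1; ring⟩
  · obtain ⟨p, hp⟩ := (hJ f).1 hf
    obtain ⟨q, hq⟩ := (hJ g).1 hg
    obtain ⟨s, hs⟩ := (hJ r).1 hr
    obtain ⟨q', -, s', -, h'⟩ := h.r3 p trivial q trivial s trivial ((hP _).1 (by
      convert I.add_mem (I.add_mem (I.sub_mem k (I.mul_mem_left c hp)) (I.mul_mem_left a hq))
        (I.mul_mem_left b hs) using 1; ring))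
    exact ⟨m * q', hm _, m * s', hm _, by convert I.add_mem hp ((hP _).2 h') using 1; ring⟩

lemma Reg.congr {a b c a' b' c' : S} {P : Ideal S} (ha : a - a' ∈ P) (hb : b - b' ∈ P)
    (hc : c - c' ∈ P) (h : Reg a' b' c' P ⊤) : Reg a b c P ⊤ := by
  refine ⟨fun f _ k => h.r1 f trivial ?_, fun f _ g _ k => ?_, fun f _ g _ r _ k => ?_⟩
  · convert P.sub_mem k (P.mul_mem_right f ha) using 1; ring
  · obtain ⟨g', -, h'⟩ := h.r2 f trivial g trivial (by
      convert P.add_mem (P.sub_mem k (P.mul_mem_right f hb)) (P.mul_mem_right g ha) using 1; ring)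
    exact ⟨g', trivial, by convert P.sub_mem h' (P.mul_mem_right g' ha) using 1; ring⟩
  · obtain ⟨g', -, r', -, h'⟩ := h.r3 f trivial g trivial r trivial (by
      convert P.add_mem (P.add_mem (P.sub_mem k (P.mul_mem_right f hc)) (P.mul_mem_right g ha))
        (P.mul_mem_right r hb) using 1; ring)
    exact ⟨g', trivial, r', trivial, by
      convert P.sub_mem (P.sub_mem h' (P.mul_mem_right g' ha)) (P.mul_mem_right r' hb) using 1
      ring⟩

lemma Reg.weak {a b c : S} {I : Ideal S} (h : Reg a b c I ⊤) :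
    RingTheory.Sequence.IsWeaklyRegular (S ⧸ I)
      [Ideal.Quotient.mk I a, Ideal.Quotient.mk I b, Ideal.Quotient.mk I c] := by
  refine ⟨fun i hi => ?_⟩
  rw [isSMulRegular_quotient_iff_mem_of_smul_mem, smul_eq_mul, Ideal.mul_top]
  intro x
  obtain ⟨f, rfl⟩ := Ideal.Quotient.mk_surjective x
  have e : ∀ u v : S, Ideal.Quotient.mk I u = Ideal.Quotient.mk I v ↔ u - v ∈ I :=
    fun u v => Ideal.Quotient.eq
  match i, hi with
  | 0, _ =>
    simp only [List.take_zero, Ideal.ofList_nil, Ideal.mem_bot, List.getElem_cons_zero,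
      smul_eq_mul, ← map_mul, Ideal.Quotient.eq_zero_iff_mem]
    exact h.r1 f trivial
  | 1, _ =>
    simp only [List.take_succ_cons, List.take_zero, Ideal.ofList_singleton,
      Ideal.mem_span_singleton', List.getElem_cons_succ, List.getElem_cons_zero, smul_eq_mul]
    rintro ⟨y, hy⟩
    obtain ⟨g, rfl⟩ := Ideal.Quotient.mk_surjective y
    rw [← map_mul, ← map_mul, eq_comm, e, mul_comm g] at hy
    obtain ⟨g', -, h'⟩ := h.r2 f trivial g trivial hy
    exact ⟨Ideal.Quotient.mk I g', by rw [← map_mul, eq_comm, e, mul_comm g']; exact h'⟩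
  | 2, _ =>
    simp only [List.take_succ_cons, List.take_zero, Ideal.ofList_cons, Ideal.ofList_nil,
      sup_bot_eq, ← Ideal.span_insert, Ideal.mem_span_pair, List.getElem_cons_succ,
      List.getElem_cons_zero, smul_eq_mul]
    rintro ⟨y, z, hy⟩
    obtain ⟨g, rfl⟩ := Ideal.Quotient.mk_surjective y
    obtain ⟨r, rfl⟩ := Ideal.Quotient.mk_surjective z
    rw [← map_mul, ← map_mul, ← map_mul, ← map_add, eq_comm, e] at hy
    obtain ⟨g', -, r', -, h'⟩ := h.r3 f trivial g trivial r trivial (by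
      convert hy using 1; ring)
    refine ⟨Ideal.Quotient.mk I g', Ideal.Quotient.mk I r', ?_⟩
    rw [← map_mul, ← map_mul, ← map_add, eq_comm, e]
    convert h' using 1; ring

end Reg

variable {K V : Type} [Field K] [DecidableEq V]

noncomputable def Phi (v : V) : MvPolynomial V K →ₐ[K] Polynomial (MvPolynomial V K) :=
  aeval fun s => if s = v then Polynomial.X else Polynomial.C (X s)

lemma Phi_eval (v : V) (h : MvPolynomial V K) : (Phi v h).eval (X v) = h := by
  induction h using MvPolynomial.induction_on with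
  | C a => simp [Phi]
  | add p q hp hq => simp [hp, hq]
  | mul_X p s hp =>
    rw [map_mul, Polynomial.eval_mul, hp]
    by_cases hs : s = v <;> simp [Phi, hs]

lemma Phi_ne {v s : V} (hs : s ≠ v) (f : Polynomial K) :
    Phi v (Polynomial.aeval (X s : MvPolynomial V K) f) =
      Polynomial.C (Polynomial.aeval (X s : MvPolynomial V K) f) := by
  rw [← Polynomial.aeval_algHom_apply]
  have : Phi v (X s : MvPolynomial V K) = Polynomial.CAlgHom (R := K) (X s : MvPolynomial V K) := by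
    simp [Phi, hs]
  rw [this, Polynomial.aeval_algHom_apply]
  rfl

lemma monic_reg (v : V) (G : Set (MvPolynomial V K)) (hG : ∀ g ∈ G, Phi v g = Polynomial.C g)
    {f : Polynomial K} (hf : f.Monic) (h : MvPolynomial V K)
    (hh : Polynomial.aeval (X v : MvPolynomial V K) f * h ∈ Ideal.span G) : h ∈ Ideal.span G := by
  set J := Ideal.span G
  have h1 : ∀ g ∈ J, (Phi v g).map (Ideal.Quotient.mk J) = 0 := by
    intro g hg
    induction hg using Submodule.span_induction with
    | mem x hx =>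
      rw [hG x hx, Polynomial.map_C, Ideal.Quotient.eq_zero_iff_mem.2 (Ideal.subset_span hx)]
      simp
    | zero => simp
    | add x y _ _ hx hy => simp [hx, hy]
    | smul a x _ hx => simp [hx]
  have h2 := h1 _ hh
  have h3 : Phi v (Polynomial.aeval (X v : MvPolynomial V K) f) =
      f.map (algebraMap K (MvPolynomial V K)) := by
    rw [← Polynomial.aeval_algHom_apply]
    simp [Phi, Polynomial.aeval_X_left_eq_map]
  rw [map_mul, Polynomial.map_mul, h3,
    ((hf.map _).map _).mul_right_eq_zero_iff] at h2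
  have h4 := congrArg (Polynomial.eval (Ideal.Quotient.mk J (X v))) h2
  rw [Polynomial.eval_map, Polynomial.eval₂_at_apply, Phi_eval, Polynomial.eval_zero] at h4
  exact Ideal.Quotient.eq_zero_iff_mem.1 h4

lemma reg_base (F : Fin 3 → V) (hF : Function.Injective F) (f : Fin 3 → Polynomial K)
    (hf : ∀ a, (f a).Monic) :
    Reg (Polynomial.aeval (X (F 0) : MvPolynomial V K) (f 0)) (Polynomial.aeval (X (F 1)) (f 1))
      (Polynomial.aeval (X (F 2)) (f 2)) (Ideal.span (X '' (Set.range F)ᶜ)) ⊤ := by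
  have hX : ∀ a, ∀ g ∈ (X '' (Set.range F)ᶜ : Set (MvPolynomial V K)),
      Phi (F a) g = Polynomial.C g := by
    rintro a _ ⟨s, hs, rfl⟩
    have : s ≠ F a := fun h => hs ⟨a, h.symm⟩
    simp [Phi, this]
  refine ⟨fun g _ h => monic_reg (F 0) _ (hX 0) (hf 0) g h, fun g _ r _ h => ?_,
    fun g _ r _ t _ h => ?_⟩
  · have := monic_reg (F 1) (insert (Polynomial.aeval (X (F 0)) (f 0)) (X '' (Set.range F)ᶜ))
      (by
        rintro g (rfl | hg)
        · exact Phi_ne (hF.ne (by decide)) _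
        · exact hX 1 g hg) (hf 1) g
      ((Ideal.mem_span_insert' _ _ _).2 ⟨-r, by convert h using 1; ring⟩)
    obtain ⟨y, hy⟩ := (Ideal.mem_span_insert' _ _ _).1 this
    exact ⟨-y, trivial, by convert hy using 1; ring⟩
  · have := monic_reg (F 2) (insert (Polynomial.aeval (X (F 0)) (f 0))
      (insert (Polynomial.aeval (X (F 1)) (f 1)) (X '' (Set.range F)ᶜ)))
      (by
        rintro g (rfl | rfl | hg)
        · exact Phi_ne (hF.ne (by decide)) _
        · exact Phi_ne (hF.ne (by decide)) _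
        · exact hX 2 g hg) (hf 2) g
      ((Ideal.mem_span_insert' _ _ _).2 ⟨-r, (Ideal.mem_span_insert' _ _ _).2 ⟨-t, by convert h using 1; ring⟩⟩)
    obtain ⟨y, hy⟩ := (Ideal.mem_span_insert' _ _ _).1 this
    obtain ⟨z, hz⟩ := (Ideal.mem_span_insert' _ _ _).1 hy
    exact ⟨-y, trivial, -z, trivial, by convert hz using 1; ring⟩

end Pool.Agent.H.MP_28b0d6_al
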