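import Mathlib

set_option autoImplicit false

namespace Pool.Agent.H.MP_28b0d6_al

def masks : List ℕ := [1, 2, 4, 8, 16, 32, 3, 5, 9, 17, 33, 6, 10, 18, 34, 12, 20, 24, 7, 11, 19,
  35, 13, 21, 25, 14, 22, 26, 28]

def face (i : Fin 29) : Finset (Fin 6) :=
  Finset.univ.filter fun x : Fin 6 => (masks.getD i 0).testBit x = true

def Gam : Finset (Finset (Fin 6)) := Finset.univ.image face

def le' (i j : Fin 29) : Bool := (masks.getD i 0) &&& (masks.getD j 0) == masks.getD i 0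

def rk' (i : Fin 29) : Fin 3 := if i.1 < 6 then 0 else if i.1 < 18 then 1 else 2

def sh : List (Fin 29 × Fin 29 × Fin 29 × ℕ) := [(0, 6, 18, 0), (1, 6, 18, 1), (0, 7, 18, 2),
  (2, 7, 18, 1), (1, 11, 18, 2), (2, 11, 18, 3), (0, 6, 19, 4), (1, 6, 19, 5), (0, 8, 19, 2),
  (3, 8, 19, 1), (1, 12, 19, 2), (3, 12, 19, 3), (0, 6, 20, 4), (1, 6, 20, 5), (0, 9, 20, 2),
  (4, 9, 20, 1), (1, 13, 20, 2), (4, 13, 20, 3), (0, 6, 21, 4), (1, 6, 21, 5), (0, 10, 21, 2),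
  (5, 10, 21, 1), (1, 14, 21, 2), (5, 14, 21, 3), (0, 7, 22, 4), (2, 7, 22, 5), (0, 8, 22, 6),
  (3, 8, 22, 5), (2, 15, 22, 2), (3, 15, 22, 3), (0, 7, 23, 4), (2, 7, 23, 5), (0, 9, 23, 6),
  (4, 9, 23, 5), (2, 16, 23, 2), (4, 16, 23, 3), (0, 8, 24, 4), (3, 8, 24, 5), (0, 9, 24, 6),
  (4, 9, 24, 5), (3, 17, 24, 2), (4, 17, 24, 3), (1, 11, 25, 4), (2, 11, 25, 5), (1, 12, 25, 6),
  (3, 12, 25, 5), (2, 15, 25, 6), (3, 15, 25, 7), (1, 11, 26, 4), (2, 11, 26, 5), (1, 13, 26, 6),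
  (4, 13, 26, 5), (2, 16, 26, 6), (4, 16, 26, 7), (1, 12, 27, 4), (3, 12, 27, 5), (1, 13, 27, 6),
  (4, 13, 27, 5), (3, 17, 27, 6), (4, 17, 27, 7), (2, 15, 28, 4), (3, 15, 28, 5), (2, 16, 28, 6),
  (4, 16, 28, 5), (3, 17, 28, 6), (4, 17, 28, 7)]

def F' (j : Fin 66) (a : Fin 3) : Fin 29 :=
  if a.1 = 0 then (sh.getD j (0, 0, 0, 0)).1 else if a.1 = 1 then (sh.getD j (0, 0, 0, 0)).2.1
    else (sh.getD j (0, 0, 0, 0)).2.2.1

def R' (j : Fin 66) (a : Fin 3) : Bool := (sh.getD j (0, 0, 0, 0)).2.2.2.testBit a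

def U' : Fin 4 → Fin 29 := ![21, 10, 14, 5]

lemma face_inj : Function.Injective face := by decide +kernel
lemma face_le : ∀ i j, face i ⊆ face j ↔ le' i j = true := by decide +kernel
lemma face_ne : ∀ i, (face i).Nonempty := by decide +kernel
lemma face_down : ∀ i, ∀ t ∈ (face i).powerset, t.Nonempty → ∃ j, face j = t := by decide +kernel
lemma face_card : ∀ i, (face i).card ≤ 3 := by decide +kernel
lemma face_card3 : (face 18).card = 3 := by decide +kernel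
lemma d_rk : ∀ j a, rk' (F' j a) = a := by decide +kernel
lemma d_same : ∀ u v, rk' u = rk' v → le' u v = true → u = v := by decide +kernel
lemma d_fac : ∀ j a b, le' (F' j a) (F' j b) = true ∨ le' (F' j b) (F' j a) = true := by
  decide +kernel
lemma d_sh1 : ∀ j i, i < j → ∃ a, R' j a = true ∧ F' j a ≠ F' i a := by decide +kernel
lemma d_sh2 : ∀ j a, R' j a = true → ∃ i, i < j ∧ ∀ b, b ≠ a → F' j b = F' i b := by
  decide +kernel
lemma d_cov : ∀ u v, (le' u v = true ∨ le' v u = true) → ∀ w, (le' u w = true ∨ le' w u = true) →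
    (le' v w = true ∨ le' w v = true) →
    ∃ j, F' j (rk' u) = u ∧ F' j (rk' v) = v ∧ F' j (rk' w) = w := by decide +kernel
lemma d_E : (Finset.univ.filter fun p : Fin 29 × Fin 29 => le' p.1 p.2 = true).card = 119 := by
  decide +kernel
lemma d_T : (Finset.univ.filter fun p : Fin 29 × Fin 29 =>
    le' p.1 p.2 = true ∧ ∃ w, U' w = p.1 ∨ U' w = p.2).card = 14 := by decide +kernel
lemma d_Uinj : Function.Injective U' := by decide +kernel
lemma d_old : ∀ a w, F' 0 a ≠ U' w := by decide +kernel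
lemma d_U : ∀ w, ∃ j, (∃ a, F' j a = U' w) ∧ ∀ a w', F' j a = U' w' → w' ≤ w := by decide +kernel

end Pool.Agent.H.MP_28b0d6_al
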