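import Mathlib
import Pool.Agent.H.MP_28b0d6_al.CM

set_option autoImplicit false
open MvPolynomial

namespace Pool.Agent.H.MP_28b0d6_al

variable {K V : Type} [Field K] [DecidableEq V] [PartialOrder V]

noncomputable def SR (K V : Type) [Field K] [PartialOrder V] : Ideal (MvPolynomial V K) :=
  Ideal.span {f | ∃ A : Finset V, ¬ IsChain (· ≤ ·) (A : Set V) ∧ f = ∏ v ∈ A, X v}

noncomputable def MI (K : Type) [Field K] (B : (V →₀ ℕ) → Prop) : Ideal (MvPolynomial V K) :=
  Ideal.span ((fun s => monomial s (1 : K)) '' {m | B m})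

omit [DecidableEq V] [PartialOrder V] in
lemma mem_MI {B : (V →₀ ℕ) → Prop} (hB : ∀ m m', m ≤ m' → B m → B m') {f : MvPolynomial V K} :
    f ∈ MI K B ↔ ∀ m ∈ f.support, B m := by
  rw [MI, mem_ideal_span_monomial_image]
  exact forall₂_congr fun m _ => ⟨fun ⟨s, hs, h⟩ => hB s m h hs, fun h => ⟨m, h, le_rfl⟩⟩

noncomputable def ind (A : Finset V) : V →₀ ℕ := ∑ v ∈ A, Finsupp.single v 1

omit [PartialOrder V] in
lemma ind_apply (A : Finset V) (v : V) : ind A v = if v ∈ A then 1 else 0 := by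
  simp [ind, Finsupp.finsetSum_apply, Finsupp.single_apply]

omit [PartialOrder V] in
lemma ind_le {A : Finset V} {m : V →₀ ℕ} : ind A ≤ m ↔ A ⊆ m.support := by
  constructor
  · intro h v hv
    have := h v
    rw [ind_apply, if_pos hv] at this
    exact Finsupp.mem_support_iff.2 (by omega)
  · intro h v
    rw [ind_apply]
    split_ifs with hv
    · exact Nat.one_le_iff_ne_zero.2 (Finsupp.mem_support_iff.1 (h hv))
    · exact Nat.zero_le _

omit [DecidableEq V] [PartialOrder V] in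
lemma prod_X (A : Finset V) : (∏ v ∈ A, X v : MvPolynomial V K) = monomial (ind A) 1 := by
  rw [ind, monomial_sum_one]; rfl

lemma mem_SR {f : MvPolynomial V K} :
    f ∈ SR K V ↔ ∀ m ∈ f.support, ¬ IsChain (· ≤ ·) (m.support : Set V) := by
  have : SR K V = Ideal.span ((fun s => monomial s (1 : K)) ''
      {m | ∃ A : Finset V, ¬ IsChain (· ≤ ·) (A : Set V) ∧ m = ind A}) := by
    rw [SR]
    congr 1
    ext f
    constructor
    · rintro ⟨A, hA, rfl⟩; exact ⟨_, ⟨A, hA, rfl⟩, (prod_X A).symm⟩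
    · rintro ⟨_, ⟨A, hA, rfl⟩, rfl⟩; exact ⟨A, hA, (prod_X A).symm⟩
  rw [this, mem_ideal_span_monomial_image]
  refine forall₂_congr fun m _ => ⟨?_, fun h => ⟨_, ⟨_, h, rfl⟩, ind_le.2 subset_rfl⟩⟩
  rintro ⟨_, ⟨A, hA, rfl⟩, h⟩ hc
  exact hA (hc.mono (by exact_mod_cast ind_le.1 h))

lemma XX_mem {u v : V} (h1 : ¬ u ≤ v) (h2 : ¬ v ≤ u) : (X u * X v : MvPolynomial V K) ∈ SR K V := by
  have hne : u ≠ v := fun h => h1 h.le
  refine Ideal.subset_span ⟨{u, v}, fun hc => ?_, by rw [Finset.prod_pair hne]⟩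
  rcases hc (by simp : u ∈ (({u, v} : Finset V) : Set V)) (by simp : v ∈ _) hne with h | h
  exacts [h1 h, h2 h]

lemma kill {B : Type} [CommRing B] [Algebra K B] (φ : MvPolynomial V K →ₐ[K] B)
    (h : ∀ u v, ¬ u ≤ v → ¬ v ≤ u → φ (X u) * φ (X v) = 0) : ∀ f ∈ SR K V, φ f = 0 := by
  have : SR K V ≤ RingHom.ker φ := by
    refine Ideal.span_le.2 ?_
    rintro _ ⟨A, hA, rfl⟩
    simp only [IsChain, Set.Pairwise] at hA
    push Not at hA
    obtain ⟨u, hu, v, hv, hne, h1, h2⟩ := hA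
    obtain ⟨c, hc⟩ := Finset.prod_dvd_prod_of_subset {u, v} A (fun v => (X v : MvPolynomial V K))
      (by intro x hx; simp at hx; rcases hx with rfl | rfl <;> assumption)
    rw [SetLike.mem_coe, RingHom.mem_ker, hc, Finset.prod_pair hne, map_mul, map_mul,
      h u v h1 h2, zero_mul]
  exact fun f hf => this hf

lemma cm_of {R : Type} [CommRing R] [IsNoetherianRing R] (𝔪 : Ideal R) [𝔪.IsMaximal]
    (l : List R) (hw : RingTheory.Sequence.IsWeaklyRegular R l) (hm : ∀ r ∈ l, r ∈ 𝔪)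
    (hp : ∀ p : Ideal R, p.IsPrime → (∀ r ∈ l, r ∈ p) → p.IsMaximal) :
    ∃ rs : List (Localization.AtPrime 𝔪),
      (∀ r ∈ rs, r ∈ IsLocalRing.maximalIdeal (Localization.AtPrime 𝔪)) ∧
      RingTheory.Sequence.IsRegular (Localization.AtPrime 𝔪) rs ∧
      (rs.length : WithBot ℕ∞) = ringKrullDim (Localization.AtPrime 𝔪) := by
  have hreg := hw.isRegular_of_isLocalization_of_mem (Localization.AtPrime 𝔪) 𝔪 hm
  set rs := l.map (algebraMap R (Localization.AtPrime 𝔪)) with hrs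
  have hmem : ∀ r ∈ rs, r ∈ IsLocalRing.maximalIdeal (Localization.AtPrime 𝔪) := by
    intro r hr
    obtain ⟨x, hx, rfl⟩ := List.mem_map.1 hr
    exact (IsLocalization.AtPrime.to_map_mem_maximal_iff (Localization.AtPrime 𝔪) 𝔪 x).2 (hm x hx)
  refine ⟨rs, hmem, hreg, ?_⟩
  have hd := ringKrullDim_add_length_eq_ringKrullDim_of_isRegular rs hreg
  have hle : Ideal.ofList rs ≤ IsLocalRing.maximalIdeal _ := Ideal.span_le.2 hmem
  have : Nontrivial (Localization.AtPrime 𝔪 ⧸ Ideal.ofList rs) :=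
    Ideal.Quotient.nontrivial_iff.2 fun h => (IsLocalRing.maximalIdeal.isMaximal _).ne_top
      (eq_top_iff.2 (h ▸ hle))
  have hz : ringKrullDim (Localization.AtPrime 𝔪 ⧸ Ideal.ofList rs) = 0 := by
    rw [← ringKrullDimZero_iff_ringKrullDim_eq_zero, Ring.krullDimLE_zero_iff]
    intro Q hQ
    set q := Q.comap (Ideal.Quotient.mk (Ideal.ofList rs)) with hq
    have hpm : (q.under R).IsMaximal := by
      refine hp _ inferInstance fun r hr => ?_
      have h1 : algebraMap R (Localization.AtPrime 𝔪) r ∈ Ideal.ofList rs :=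
        Ideal.subset_span (List.mem_map_of_mem hr)
      rw [Ideal.under, Ideal.mem_comap, hq, Ideal.mem_comap,
        Ideal.Quotient.eq_zero_iff_mem.2 h1]
      exact Q.zero_mem
    have hpe : q.under R = 𝔪 := by
      refine hpm.eq_of_le (Ideal.IsMaximal.ne_top inferInstance) ?_
      conv_rhs => rw [← Localization.AtPrime.under_maximalIdeal (I := 𝔪)]
      exact Ideal.comap_mono (IsLocalRing.le_maximalIdeal (Ideal.IsPrime.ne_top inferInstance))
    have hqm : q = IsLocalRing.maximalIdeal _ := by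
      rw [← IsLocalization.map_under 𝔪.primeCompl _ q, hpe,
        Localization.AtPrime.map_eq_maximalIdeal]
    have : q.IsMaximal := hqm ▸ IsLocalRing.maximalIdeal.isMaximal _
    rw [← Ideal.map_comap_of_surjective _ Ideal.Quotient.mk_surjective Q]
    refine Ideal.IsMaximal.map_of_surjective_of_ker_le Ideal.Quotient.mk_surjective ?_
    exact Ideal.ker_le_comap _
  rw [hz, zero_add] at hd
  exact hd

structure Sh (V : Type) [PartialOrder V] (N : ℕ) where
  rk : V → Fin 3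
  F : Fin N → Fin 3 → V
  R : Fin N → Fin 3 → Bool
  j0 : Fin N
  hrk : ∀ j a, rk (F j a) = a
  same : ∀ u v, rk u = rk v → u ≤ v → u = v
  fac : ∀ j a b, F j a ≤ F j b ∨ F j b ≤ F j a
  sh1 : ∀ j i, i < j → ∃ a, R j a = true ∧ F j a ≠ F i a
  sh2 : ∀ j a, R j a = true → ∃ i, i < j ∧ ∀ b, b ≠ a → F j b = F i b
  cov : ∀ u v, (u ≤ v ∨ v ≤ u) → ∀ w, (u ≤ w ∨ w ≤ u) → (v ≤ w ∨ w ≤ v) →
    ∃ j, F j (rk u) = u ∧ F j (rk v) = v ∧ F j (rk w) = w

namespace Sh
variable {N : ℕ} (D : Sh V N)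

omit [DecidableEq V] in
lemma inj (j : Fin N) : Function.Injective (D.F j) := fun a b h => by
  rw [← D.hrk j a, h, D.hrk]

omit [DecidableEq V] in
lemma mem_F {j : Fin N} {v : V} : v ∈ Set.range (D.F j) ↔ D.F j (D.rk v) = v :=
  ⟨by rintro ⟨a, rfl⟩; rw [D.hrk], fun h => ⟨_, h⟩⟩

omit [DecidableEq V] in
lemma chain_iff (A : Finset V) :
    IsChain (· ≤ ·) (A : Set V) ↔ ∃ j, (A : Set V) ⊆ Set.range (D.F j) := by
  classical
  constructor
  · intro hc
    rcases A.eq_empty_or_nonempty with rfl | ⟨x, hx⟩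
    · exact ⟨D.j0, by simp⟩
    have cmp : ∀ u ∈ A, ∀ v ∈ A, u ≤ v ∨ v ≤ u := fun u hu v hv => hc.total hu hv
    have : ∀ a : Fin 3, ∃ u ∈ A, ∀ v ∈ A, D.rk v = a → v = u := by
      intro a
      by_cases h : ∃ u ∈ A, D.rk u = a
      · obtain ⟨u, hu, rfl⟩ := h
        refine ⟨u, hu, fun v hv h => ?_⟩
        rcases cmp u hu v hv with h1 | h1
        · exact (D.same u v h.symm h1).symm
        · exact D.same v u h h1
      · exact ⟨x, hx, fun v hv h' => absurd ⟨v, hv, h'⟩ h⟩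
    choose u hu1 hu2 using this
    obtain ⟨j, h0, h1, h2⟩ := D.cov (u 0) (u 1) (cmp _ (hu1 _) _ (hu1 _)) (u 2)
      (cmp _ (hu1 _) _ (hu1 _)) (cmp _ (hu1 _) _ (hu1 _))
    refine ⟨j, fun v hv => ?_⟩
    have := hu2 (D.rk v) v hv rfl
    rw [this]
    generalize D.rk v = a
    fin_cases a
    exacts [⟨_, h0⟩, ⟨_, h1⟩, ⟨_, h2⟩]
  · rintro ⟨j, hj⟩ u hu v hv _
    obtain ⟨a, rfl⟩ := hj hu
    obtain ⟨b, rfl⟩ := hj hv
    exact D.fac j a b

def Bad (n : ℕ) (m : V →₀ ℕ) : Prop :=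
  ∀ i : Fin N, i.1 < n → ¬ (m.support : Set V) ⊆ Set.range (D.F i)

omit [DecidableEq V] in
lemma Bad_up (n : ℕ) : ∀ m m', m ≤ m' → D.Bad n m → D.Bad n m' := fun _ _ h hb i hi hs =>
  hb i hi (Set.Subset.trans (by exact_mod_cast Finsupp.support_mono h) hs)

noncomputable def rr (j : Fin N) : V →₀ ℕ :=
  ind ((Finset.univ.filter fun a => D.R j a = true).image (D.F j))

lemma rr_bad (j : Fin N) : D.Bad j (D.rr j) := by
  intro i hi hs
  obtain ⟨a, ha, hne⟩ := D.sh1 j i hi
  have : D.F j a ∈ (D.rr j).support :=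
    ind_le.1 le_rfl (Finset.mem_image_of_mem _ (by simp [ha]))
  have := D.mem_F.1 (hs this)
  rw [D.hrk] at this
  exact hne this.symm

lemma rr_le (j : Fin N) {m : V →₀ ℕ} (h1 : D.Bad j m)
    (h2 : (m.support : Set V) ⊆ Set.range (D.F j)) : D.rr j ≤ m := by
  refine ind_le.2 fun v hv => ?_
  obtain ⟨a, ha, rfl⟩ := Finset.mem_image.1 hv
  obtain ⟨i, hi, h⟩ := D.sh2 j a (by simpa using ha)
  by_contra hn
  refine h1 i hi fun w hw => ?_
  obtain ⟨b, rfl⟩ := h2 hw
  exact ⟨b, (h b (by rintro rfl; exact hn hw)).symm⟩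

lemma rr_supp (j : Fin N) : ((D.rr j).support : Set V) ⊆ Set.range (D.F j) := by
  intro v hv
  have := Finsupp.mem_support_iff.1 hv
  rw [rr, ind_apply] at this
  split_ifs at this with h
  · obtain ⟨a, -, rfl⟩ := Finset.mem_image.1 h
    exact ⟨a, rfl⟩
  · exact absurd rfl this

omit [DecidableEq V] in
lemma Bad_succ (j : Fin N) (m : V →₀ ℕ) :
    D.Bad (j + 1) m ↔ D.Bad j m ∧ ¬ (m.support : Set V) ⊆ Set.range (D.F j) := by
  refine ⟨fun h => ⟨fun i hi => h i (by omega), h j (by omega)⟩, fun h i hi => ?_⟩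
  by_cases e : i = j
  · rw [e]; exact h.2
  · exact h.1 i (by have := Fin.val_ne_of_ne e; omega)

variable [Fintype V]

noncomputable def th (K : Type) [Field K] (a : Fin 3) : MvPolynomial V K :=
  ∑ v ∈ Finset.univ.filter (fun v => D.rk v = a), X v

lemma th_sub (j : Fin N) (a : Fin 3) :
    D.th K a - X (D.F j a) ∈ Ideal.span (X '' (Set.range (D.F j))ᶜ) := by
  rw [th, ← Finset.add_sum_erase _ _ (a := D.F j a) (by simp [D.hrk]), add_sub_cancel_left]
  refine Ideal.sum_mem _ fun v hv => Ideal.subset_span ⟨v, fun h => ?_, rfl⟩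
  simp only [Finset.mem_erase, Finset.mem_filter, Finset.mem_univ, true_and] at hv
  rw [D.mem_F, hv.2] at h
  exact hv.1 h.symm

lemma aeval_dvd {A : Type} [CommRing A] [Algebra K A] (x y : A) (f : Polynomial K) :
    x - y ∣ Polynomial.aeval x f - Polynomial.aeval y f := by
  simpa [Polynomial.eval_map_algebraMap] using
    Polynomial.sub_dvd_eval_sub x y (f.map (algebraMap K A))

lemma reg_step (f : Fin 3 → Polynomial K) (hf : ∀ a, (f a).Monic) (j : Fin N) :
    Reg (Polynomial.aeval (D.th K 0) (f 0)) (Polynomial.aeval (D.th K 1) (f 1))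
      (Polynomial.aeval (D.th K 2) (f 2)) (MI K (D.Bad (j + 1))) (MI K (D.Bad j)) := by
  have hle : MI K (D.Bad (j + 1)) ≤ MI K (D.Bad j) :=
    Ideal.span_mono (Set.image_mono fun m hm => ((D.Bad_succ j m).1 hm).1)
  refine Reg.step (m := monomial (D.rr j) 1) (P := Ideal.span (X '' (Set.range (D.F j))ᶜ))
    (fun g => ⟨fun hg => ?_, ?_⟩) (fun p => ?_) ?_
  · have : MI K (D.Bad j) ≤ Ideal.span {monomial (D.rr j) (1 : K)} ⊔ MI K (D.Bad (j + 1)) := by
      refine Ideal.span_le.2 ?_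
      rintro _ ⟨m, hm, rfl⟩
      by_cases h : (m.support : Set V) ⊆ Set.range (D.F j)
      · refine Ideal.mem_sup_left (Ideal.mem_span_singleton.2 ?_)
        exact monomial_dvd_monomial.2 ⟨Or.inr (D.rr_le j hm h), dvd_rfl⟩
      · exact Ideal.mem_sup_right (Ideal.subset_span ⟨m, (D.Bad_succ j m).2 ⟨hm, h⟩, rfl⟩)
    obtain ⟨a, b, hb, rfl⟩ := Ideal.mem_span_singleton_sup.1 (this hg)
    exact ⟨a, by convert hb using 1; ring⟩
  · rintro ⟨p, hp⟩
    have := (MI K (D.Bad j)).add_mem (hle hp)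
      ((MI K (D.Bad j)).mul_mem_right p (Ideal.subset_span ⟨_, D.rr_bad j, rfl⟩))
    simpa using this
  · rw [mem_MI (D.Bad_up _), mem_ideal_span_X_image]
    constructor
    · intro h m hm
      have := h (D.rr j + m) (by
        rw [mem_support_iff, coeff_monomial_mul, one_mul]; exact mem_support_iff.1 hm)
      by_contra hcon
      push Not at hcon
      refine ((D.Bad_succ j _).1 this).2 fun v hv => ?_
      rcases Finset.mem_union.1 (Finsupp.support_add hv) with h1 | h1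
      · exact D.rr_supp j h1
      · by_contra h2
        exact Finsupp.mem_support_iff.1 h1 (hcon v h2)
    · intro h m hm
      rw [mem_support_iff, coeff_monomial_mul'] at hm
      split_ifs at hm with h1
      · obtain ⟨v, hv, h2⟩ := h (m - D.rr j) (mem_support_iff.2 (by simpa using hm))
        refine (D.Bad_succ j m).2 ⟨D.Bad_up _ _ _ h1 (D.rr_bad j), fun h3 => hv (h3 ?_)⟩
        refine Finsupp.mem_support_iff.2 fun h4 => h2 ?_
        simp [h4]
      · exact absurd rfl hm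
  · have key : ∀ a, Polynomial.aeval (D.th K a) (f a) -
        Polynomial.aeval (X (D.F j a) : MvPolynomial V K) (f a) ∈
          Ideal.span (X '' (Set.range (D.F j))ᶜ) :=
      fun a => Ideal.mem_of_dvd _ (aeval_dvd _ _ _) (D.th_sub j a)
    exact Reg.congr (key 0) (key 1) (key 2) (reg_base (D.F j) (D.inj j) f hf)

lemma reg_all (f : Fin 3 → Polynomial K) (hf : ∀ a, (f a).Monic) :
    Reg (Polynomial.aeval (D.th K 0) (f 0)) (Polynomial.aeval (D.th K 1) (f 1))
      (Polynomial.aeval (D.th K 2) (f 2)) (SR K V) ⊤ := by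
  have h0 : MI K (D.Bad 0) = ⊤ :=
    eq_top_iff.2 fun g _ => (mem_MI (D.Bad_up _)).2 fun m _ i hi => absurd hi (by omega)
  have hN : MI K (D.Bad N) = SR K V := by
    ext g
    rw [mem_MI (D.Bad_up _), mem_SR]
    refine forall₂_congr fun m _ => ?_
    rw [D.chain_iff, not_exists]
    exact ⟨fun h i => h i i.2, fun h i _ => h i⟩
  have key : ∀ n ≤ N, Reg (Polynomial.aeval (D.th K 0) (f 0)) (Polynomial.aeval (D.th K 1) (f 1))
      (Polynomial.aeval (D.th K 2) (f 2)) (MI K (D.Bad n)) ⊤ := by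
    intro n hn
    induction n with
    | zero => rw [h0]; exact Reg.refl _ _ _ _
    | succ n ih =>
      refine Reg.trans ?_ le_top (D.reg_step f hf ⟨n, hn⟩) (ih (by omega))
      exact Ideal.span_mono (Set.image_mono fun m hm => ((D.Bad_succ ⟨n, hn⟩ m).1 hm).1)
  exact hN ▸ key N le_rfl

lemma integral {A : Type} [CommRing A] [Algebra K A] (π : MvPolynomial V K →ₐ[K] A)
    (hπ : Function.Surjective π) (hI : ∀ g ∈ SR K V, π g = 0) (f : Fin 3 → Polynomial K)
    (hf : ∀ a, (f a).Monic) (h0 : ∀ a, π (Polynomial.aeval (D.th K a) (f a)) = 0) :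
    Algebra.IsIntegral K A := by
  have hX : ∀ v, IsIntegral K (π (X v)) := by
    intro v
    have h1 : π (X v) * (π (D.th K (D.rk v)) - π (X v)) = 0 := by
      rw [← map_sub, ← map_mul]
      apply hI
      rw [th, ← Finset.add_sum_erase _ _ (a := v) (by simp), add_sub_cancel_left, Finset.mul_sum]
      refine Ideal.sum_mem _ fun u hu => ?_
      simp only [Finset.mem_erase, Finset.mem_filter, Finset.mem_univ, true_and] at hu
      exact XX_mem (fun h => hu.1 (D.same _ _ hu.2.symm h).symm) (fun h => hu.1 (D.same _ _ hu.2 h))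
    obtain ⟨c, hc⟩ := aeval_dvd (π (D.th K (D.rk v))) (π (X v)) (f (D.rk v))
    rw [Polynomial.aeval_algHom_apply, h0, zero_sub, neg_eq_iff_eq_neg] at hc
    refine ⟨Polynomial.X * f (D.rk v), Polynomial.monic_X.mul (hf _), ?_⟩
    rw [← Polynomial.aeval_def, map_mul, Polynomial.aeval_X, hc, mul_neg, ← mul_assoc, h1]
    simp
  refine ⟨fun x => ?_⟩
  obtain ⟨g, rfl⟩ := hπ x
  induction g using MvPolynomial.induction_on with
  | C a => rw [algHom_C]; exact isIntegral_algebraMap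
  | add p q hp hq => rw [map_add]; exact hp.add hq
  | mul_X p s hp => rw [map_mul]; exact hp.mul (hX s)

include D in
theorem cm (𝔪 : Ideal (MvPolynomial V K ⧸ SR K V)) [𝔪.IsMaximal] :
    ∃ rs : List (Localization.AtPrime 𝔪),
      (∀ r ∈ rs, r ∈ IsLocalRing.maximalIdeal (Localization.AtPrime 𝔪)) ∧
      RingTheory.Sequence.IsRegular (Localization.AtPrime 𝔪) rs ∧
      (rs.length : WithBot ℕ∞) = ringKrullDim (Localization.AtPrime 𝔪) := by
  let := Ideal.Quotient.field 𝔪
  have : Module.Finite K ((MvPolynomial V K ⧸ SR K V) ⧸ 𝔪) :=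
    finite_of_finite_type_of_isJacobsonRing K _
  let π : MvPolynomial V K →ₐ[K] (MvPolynomial V K ⧸ SR K V) := Ideal.Quotient.mkₐ K _
  let f : Fin 3 → Polynomial K := fun a => minpoly K (Ideal.Quotient.mkₐ K 𝔪 (π (D.th K a)))
  have hf : ∀ a, (f a).Monic := fun a => minpoly.monic (Algebra.IsIntegral.isIntegral _)
  let t : Fin 3 → (MvPolynomial V K ⧸ SR K V) := fun a => π (Polynomial.aeval (D.th K a) (f a))
  have ht : ∀ a, t a ∈ 𝔪 := by
    intro a
    rw [← Ideal.Quotient.eq_zero_iff_mem]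
    change Ideal.Quotient.mkₐ K 𝔪 (π _) = 0
    rw [← Polynomial.aeval_algHom_apply, ← Polynomial.aeval_algHom_apply]
    exact minpoly.aeval _ _
  refine cm_of 𝔪 [t 0, t 1, t 2] (D.reg_all f hf).weak (by simp [ht]) fun p hp htp => ?_
  have : Algebra.IsIntegral K ((MvPolynomial V K ⧸ SR K V) ⧸ p) := by
    refine D.integral ((Ideal.Quotient.mkₐ K p).comp π)
      ((Ideal.Quotient.mkₐ_surjective K p).comp (Ideal.Quotient.mkₐ_surjective K _))
      (fun g hg => ?_) f hf fun a => Ideal.Quotient.eq_zero_iff_mem.2 (htp (t a) ?_)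
    · have : π g = 0 := Ideal.Quotient.eq_zero_iff_mem.2 hg
      rw [AlgHom.comp_apply, this, map_zero]
    · fin_cases a <;> simp
  exact Ideal.Quotient.maximal_of_isField p
    (isField_of_isIntegral_of_isField' (Field.toIsField K))

theorem lsop : Module.Finite K (MvPolynomial V K ⧸ (SR K V ⊔ Ideal.span (Set.range (D.th K)))) := by
  have := D.integral (Ideal.Quotient.mkₐ K (SR K V ⊔ Ideal.span (Set.range (D.th K))))
    (Ideal.Quotient.mkₐ_surjective K _)
    (fun g hg => Ideal.Quotient.eq_zero_iff_mem.2 (Ideal.mem_sup_left hg))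
    (fun _ => Polynomial.X) (fun _ => Polynomial.monic_X) (fun a => by
      rw [Polynomial.aeval_X]
      exact Ideal.Quotient.eq_zero_iff_mem.2 (Ideal.mem_sup_right (Ideal.subset_span ⟨a, rfl⟩)))
  exact Algebra.IsIntegral.finite

omit [DecidableEq V] in
lemma th_hom (a : Fin 3) : (D.th K a).IsHomogeneous 1 :=
  IsHomogeneous.sum _ _ _ fun v _ => isHomogeneous_X K v

end Sh

end Pool.Agent.H.MP_28b0d6_al
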