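import Mathlib
import Pool.Agent.H.MP_28b0d6_al.Shell

set_option autoImplicit false
open MvPolynomial

namespace Pool.Agent.H.MP_28b0d6_al

variable {K V : Type} [Field K] [DecidableEq V] [PartialOrder V] [Fintype V]

noncomputable def lin (μ : V → K) : MvPolynomial V K := ∑ s, μ s • X s

omit [DecidableEq V] [PartialOrder V] in
lemma exists_lin {f : MvPolynomial V K} (hf : f.IsHomogeneous 1) : ∃ μ, f = lin μ := by
  have : f ∈ homogeneousSubmodule V K 1 := hf
  rw [homogeneousSubmodule_one_eq_span_X, Submodule.mem_span_range_iff_exists_fun] at this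
  obtain ⟨c, hc⟩ := this
  exact ⟨c, hc.symm⟩

omit [DecidableEq V] [PartialOrder V] in
lemma lin_hom (μ : V → K) : (lin μ).IsHomogeneous 1 := by
  have : lin μ ∈ homogeneousSubmodule V K 1 :=
    Submodule.sum_mem _ fun s _ => Submodule.smul_mem _ _ (isHomogeneous_X K s)
  exact this

noncomputable def JJ (M : Fin 3 → V → K) : Ideal (MvPolynomial V K) :=
  SR K V ⊔ Ideal.span (Set.range fun k => lin (M k))

lemma kill' {B : Type} [CommRing B] [Algebra K B] (φ : MvPolynomial V K →ₐ[K] B)
    (h : ∀ u v, ¬ u ≤ v → ¬ v ≤ u → φ (X u) * φ (X v) = 0) (M : Fin 3 → V → K)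
    (h' : ∀ k, φ (lin (M k)) = 0) : ∀ f ∈ JJ M, φ f = 0 := by
  have : JJ M ≤ RingHom.ker φ := by
    refine sup_le (fun f hf => kill φ h f hf) (Ideal.span_le.2 ?_)
    rintro _ ⟨k, rfl⟩
    exact h' k
  exact fun f hf => this hf

def ext {ι : Type} [Fintype ι] (U : ι → V) (c : ι → K) (s : V) : K :=
  ∑ w, if U w = s then c w else 0

omit [PartialOrder V] in
lemma sum_ext {ι : Type} [Fintype ι] (U : ι → V) (c : ι → K) (μ : V → K) :
    ∑ s, μ s * ext U c s = ∑ w, μ (U w) * c w := by
  simp only [ext, Finset.mul_sum]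
  rw [Finset.sum_comm]
  simp

omit [PartialOrder V] [Fintype V] in
lemma ext_ap {ι : Type} [Fintype ι] {U : ι → V} (hU : Function.Injective U) (c : ι → K) (w : ι) :
    ext U c (U w) = c w := by
  classical
  simp [ext, hU.eq_iff]

omit [PartialOrder V] [Fintype V] in
lemma ext_zero {ι : Type} [Fintype ι] {U : ι → V} (c : ι → K) {s : V} (hs : ∀ w, U w ≠ s) :
    ext U c s = 0 := by
  simp [ext, hs]

namespace Sh
variable {N : ℕ} (D : Sh V N)

lemma unit (M : Fin 3 → V → K) [hfin : Module.Finite K (MvPolynomial V K ⧸ JJ M)] (j : Fin N) :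
    IsUnit (Matrix.of fun k a => M k (D.F j a)) := by
  rw [← Matrix.mulVec_injective_iff_isUnit, ← Matrix.coe_mulVecLin, injective_iff_map_eq_zero]
  intro p hp
  let φ : MvPolynomial V K →ₐ[K] Polynomial K :=
    aeval fun s => ext (D.F j) p s • (Polynomial.X : Polynomial K)
  have hk : ∀ f ∈ JJ M, φ f = 0 := by
    refine kill' φ (fun u v h1 h2 => ?_) M fun k => ?_
    · simp only [φ, aeval_X]
      by_cases hu : ∀ a, D.F j a ≠ u
      · simp [ext_zero p hu]
      by_cases hv : ∀ a, D.F j a ≠ v
      · simp [ext_zero p hv]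
      push Not at hu hv
      obtain ⟨a, rfl⟩ := hu
      obtain ⟨b, rfl⟩ := hv
      exact absurd (D.fac j a b) (by simp [h1, h2])
    · simp only [φ, lin, map_sum, map_smul, aeval_X, smul_smul]
      rw [← Finset.sum_smul, sum_ext]
      have := congrFun hp k
      simp only [Matrix.mulVecLin_apply, Matrix.mulVec, dotProduct, Matrix.of_apply,
        Pi.zero_apply] at this
      rw [this, zero_smul]
  let ψ := Ideal.Quotient.liftₐ (JJ M) φ hk
  funext a
  by_contra hne
  have h1 : IsIntegral K (ψ (Ideal.Quotient.mk _ (X (D.F j a)))) :=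
    (Algebra.IsIntegral.isIntegral _).map ψ
  have h2 : ψ (Ideal.Quotient.mk _ (X (D.F j a))) = p a • Polynomial.X := by
    simp [ψ, φ, ext_ap (D.inj j)]
  rw [h2] at h1
  have h3 := h1.smul (p a)⁻¹
  rw [smul_smul, inv_mul_cancel₀ hne, one_smul] at h3
  exact Polynomial.transcendental_X K h3.isAlgebraic

end Sh

abbrev EE (V : Type) [PartialOrder V] : Type := {p : V × V // p.1 ≤ p.2}

noncomputable def pr : MvPolynomial V K →ₗ[K] (EE V → K) :=
  LinearMap.pi fun e => lcoeff K (Finsupp.single e.1.1 1 + Finsupp.single e.1.2 1)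

lemma not_surj (hc : 4 * Fintype.card V < Nat.card (EE V)) (M : Fin 3 → V → K) (μ : V → K)
    (h : ∀ u v : V, ∃ f, X u * X v - lin μ * f ∈ JJ M) : False := by
  classical
  let M' : Option (Fin 3) → V → K := fun o => o.elim μ M
  let W := Submodule.span K (Set.range fun q : Option (Fin 3) × V =>
    (pr (lin (M' q.1) * X q.2) : EE V → K))
  have h1 : ∀ o g, pr (lin (M' o) * g) ∈ W := by
    intro o g
    induction g using MvPolynomial.induction_on' with
    | add p q hp hq => rw [mul_add, map_add]; exact W.add_mem hp hq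
    | monomial m c =>
      by_cases hm : m.degree = 1
      · obtain ⟨s, rfl⟩ := (Finsupp.sum_eq_one_iff m).1 hm
        have : (monomial (Finsupp.single s 1) c : MvPolynomial V K) = c • X s := by
          rw [X, smul_monomial, smul_eq_mul, mul_one]
        rw [this, mul_smul_comm, map_smul]
        exact W.smul_mem _ (Submodule.subset_span ⟨(o, s), rfl⟩)
      · have : pr (lin (M' o) * monomial m c) = 0 := by
          funext e
          refine ((lin_hom (M' o)).mul (isHomogeneous_monomial c rfl)).coeff_eq_zero ?_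
          simp only [map_add, Finsupp.degree_single]
          omega
        rw [this]; exact W.zero_mem
  have h2 : ∀ f ∈ JJ M, pr f ∈ W := by
    intro f hf
    obtain ⟨a, ha, b, hb, rfl⟩ := Submodule.mem_sup.1 hf
    obtain ⟨c, rfl⟩ := Ideal.mem_span_range_iff_exists_fun.1 hb
    have : pr a = 0 := by
      funext e
      by_contra hne
      refine mem_SR.1 ha _ (mem_support_iff.2 hne) ?_
      have hs : ((Finsupp.single e.1.1 1 + Finsupp.single e.1.2 1 : V →₀ ℕ).support : Set V) ⊆
          {e.1.1, e.1.2} := by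
        intro v hv
        rcases Finset.mem_union.1 (Finsupp.support_add hv) with h | h
        · exact Or.inl (Finset.mem_singleton.1 (Finsupp.support_single_subset h))
        · exact Or.inr (Finset.mem_singleton.1 (Finsupp.support_single_subset h))
      exact (IsChain.pair e.2).mono hs
    rw [map_add, this, zero_add, map_sum]
    exact W.sum_mem fun k _ => by rw [mul_comm]; exact h1 (some k) _
  have h3 : W = ⊤ := by
    rw [eq_top_iff, ← (Pi.basisFun K (EE V)).span_eq, Submodule.span_le]
    rintro _ ⟨e, rfl⟩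
    obtain ⟨f, hf⟩ := h e.1.1 e.1.2
    have := W.add_mem (h2 _ hf) (h1 none f)
    rw [← map_add] at this
    simp only [M', Option.elim, sub_add_cancel] at this
    refine SetLike.mem_coe.2 (Eq.mpr (congrArg (· ∈ W) ?_) this)
    funext e'
    simp only [pr, Pi.basisFun_apply, LinearMap.pi_apply, lcoeff_apply, X, monomial_mul, mul_one,
      coeff_monomial, Pi.single_apply]
    refine if_congr ?_ rfl rfl
    rw [Finsupp.single_add_single_eq_single_add_single one_ne_zero one_ne_zero]
    constructor
    · rintro rfl; exact Or.inl ⟨rfl, rfl⟩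
    · rintro (⟨a, b⟩ | ⟨-, a, b⟩ | ⟨a, -⟩)
      · exact Subtype.ext (Prod.ext a.symm b.symm)
      · have e1 := e.2
        have e2 := e'.2
        rw [← a, ← b] at e2
        have := le_antisymm e1 e2
        exact Subtype.ext (Prod.ext (b.symm.trans this.symm) (a.symm.trans this))
      · omega
  have h4 := finrank_range_le_card (R := K) fun q : Option (Fin 3) × V =>
    (pr (lin (M' q.1) * X q.2) : EE V → K)
  change Module.finrank K W ≤ _ at h4
  rw [h3] at h4
  simp only [finrank_top, Module.finrank_pi, Fintype.card_prod, Fintype.card_option,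
    Fintype.card_fin] at h4
  rw [Nat.card_eq_fintype_card] at hc
  omega

abbrev TT (U : Fin 4 → V) : Type := {p : V × V // p.1 ≤ p.2 ∧ ∃ w, U w = p.1 ∨ U w = p.2}

namespace Sh
variable {N : ℕ} (D : Sh V N)

lemma not_inj [CharZero K] (U : Fin 4 → V) (hU : Function.Injective U)
    (hold : ∀ a w, D.F D.j0 a ≠ U w)
    (hord : ∀ w, ∃ j, (∃ a, D.F j a = U w) ∧ ∀ a w', D.F j a = U w' → w' ≤ w)
    (hT : Nat.card (TT U) < 16) (M : Fin 3 → V → K)
    [Module.Finite K (MvPolynomial V K ⧸ JJ M)] (μ : V → K) :
    ∃ ν : V → K, lin μ * lin ν ∈ JJ M ∧ lin ν ∉ JJ M := by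
  classical
  let M' : Option (Fin 3) → V → K := fun o => o.elim μ M
  let Λ : (Option (Fin 3) → Fin 4 → K) → V → V → K :=
    fun c s s' => ∑ o, ext U (c o) s * M' o s'
  let Ψ : (Option (Fin 3) → Fin 4 → K) →ₗ[K] (TT U → K) :=
    { toFun := fun c e => Λ c e.1.1 e.1.2 + Λ c e.1.2 e.1.1
      map_add' := fun c d => by
        funext e
        simp only [Λ, ext, Pi.add_apply, ite_add_zero, Finset.sum_add_distrib, add_mul]
        ring
      map_smul' := fun a c => by
        funext e
        simp only [Λ, ext, Pi.smul_apply, smul_eq_mul, RingHom.id_apply, mul_add, Finset.mul_sum,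
          Finset.sum_mul, mul_ite, ite_mul, mul_zero, zero_mul, mul_assoc] }
  have hker : LinearMap.ker Ψ ≠ ⊥ := by
    refine LinearMap.ker_ne_bot_of_finrank_lt ?_
    rw [Nat.card_eq_fintype_card] at hT
    simpa [Module.finrank_pi_fintype] using hT
  obtain ⟨c, hc, hc0⟩ := Submodule.exists_mem_ne_zero_of_ne_bot hker
  have hsym : ∀ s s', s ≤ s' ∨ s' ≤ s → Λ c s s' + Λ c s' s = 0 := by
    have key : ∀ s s', s ≤ s' → Λ c s s' + Λ c s' s = 0 := by
      intro s s' h
      by_cases hw : ∃ w, U w = s ∨ U w = s'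
      · exact congrFun (LinearMap.mem_ker.1 hc) ⟨(s, s'), h, hw⟩
      · push Not at hw
        simp [Λ, ext_zero _ fun w => (hw w).1, ext_zero _ fun w => (hw w).2]
    rintro s s' (h | h)
    · exact key s s' h
    · rw [add_comm]; exact key s' s h
  have hQ : ∑ o, lin (M' o) * lin (ext U (c o)) ∈ SR K V := by
    have e1 : ∑ o, lin (M' o) * lin (ext U (c o)) =
        ∑ s, ∑ s', Λ c s s' • (X s * X s' : MvPolynomial V K) := by
      simp only [lin, Λ, Finset.sum_smul, Finset.mul_sum, Finset.sum_mul]
      rw [Finset.sum_comm]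
      refine Finset.sum_congr rfl fun s _ => ?_
      rw [Finset.sum_comm]
      refine Finset.sum_congr rfl fun s' _ => Finset.sum_congr rfl fun o _ => ?_
      rw [smul_mul_smul_comm, mul_comm (M' o s'), mul_comm (X s')]
    have e2 : ∑ s, ∑ s', Λ c s s' • (X s * X s' : MvPolynomial V K) =
        ∑ s, ∑ s', Λ c s' s • (X s * X s' : MvPolynomial V K) := by
      rw [Finset.sum_comm]
      simp only [mul_comm]
    have e3 : ∑ o, lin (M' o) * lin (ext U (c o)) =
        C (2⁻¹ : K) * ∑ s, ∑ s', (Λ c s s' + Λ c s' s) • (X s * X s' : MvPolynomial V K) := by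
      simp only [add_smul, Finset.sum_add_distrib]
      rw [← e2, ← e1, ← two_mul, ← mul_assoc, show (2 : MvPolynomial V K) = C 2 from rfl,
        ← C_mul, inv_mul_cancel₀ two_ne_zero, C_1, one_mul]
    rw [e3]
    refine Ideal.mul_mem_left _ _ (Ideal.sum_mem _ fun s _ => Ideal.sum_mem _ fun s' _ => ?_)
    by_cases h : s ≤ s' ∨ s' ≤ s
    · rw [hsym s s' h, zero_smul]; exact Ideal.zero_mem _
    · push Not at h
      rw [smul_eq_C_mul]
      exact Ideal.mul_mem_left _ _ (XX_mem h.1 h.2)
  refine ⟨ext U (c none), ?_, fun hmem => hc0 ?_⟩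
  · rw [Fintype.sum_option] at hQ
    have h2 : ∑ k, lin (M' (some k)) * lin (ext U (c (some k))) ∈ JJ M :=
      Ideal.sum_mem _ fun k _ => Ideal.mul_mem_right _ _
        (Ideal.mem_sup_right (Ideal.subset_span ⟨k, rfl⟩))
    simpa [M'] using (JJ M).sub_mem (Ideal.mem_sup_left hQ) h2
  have hn : ∀ w, c none w = 0 := by
    intro w
    obtain ⟨p, hp⟩ := Matrix.mulVec_surjective_iff_isUnit.2 (D.unit M D.j0) fun k => - M k (U w)
    let P : V → K := fun s => ext U (Pi.single w 1) s + ext (D.F D.j0) p s
    let φ : MvPolynomial V K →ₐ[K] TrivSqZeroExt K K := aeval fun s => TrivSqZeroExt.inr (P s)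
    have hφ : ∀ ν, φ (lin ν) = TrivSqZeroExt.inr (∑ s, ν s * P s) := by
      intro ν
      simp only [φ, lin, map_sum, map_smul, aeval_X, TrivSqZeroExt.inr_sum,
        ← TrivSqZeroExt.inr_smul, smul_eq_mul]
    have hk := kill' φ (fun u v _ _ => by simp [φ]) M (fun k => by
      rw [hφ]
      have := congrFun hp k
      simp only [Matrix.mulVec, dotProduct, Matrix.of_apply] at this
      simp [P, mul_add, Finset.sum_add_distrib, sum_ext, this, Pi.single_apply]) _ hmem
    rw [hφ, ← TrivSqZeroExt.inr_zero, TrivSqZeroExt.inr_injective.eq_iff] at hk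
    simpa [P, mul_add, Finset.sum_add_distrib, sum_ext, ext_ap hU, Pi.single_apply,
      ext_zero _ fun w => (hold _ w).symm] using hk
  have hs : ∀ w, ∀ k, c (some k) w = 0 := by
    intro w
    induction w using WellFoundedLT.induction with
    | ind w ih =>
      obtain ⟨j, ⟨a, ha⟩, hj⟩ := hord w
      have h1 : ∀ b, Λ c (U w) (D.F j b) = 0 := by
        intro b
        have h2 := hsym (U w) (D.F j b) (ha ▸ D.fac j a b)
        by_cases hb : D.F j b = U w
        · rw [hb] at h2 ⊢
          exact add_self_eq_zero.1 h2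
        · have : Λ c (D.F j b) (U w) = 0 := by
            refine Finset.sum_eq_zero fun o _ => mul_eq_zero_of_left ?_ _
            by_cases h3 : ∀ w', U w' ≠ D.F j b
            · exact ext_zero _ h3
            push Not at h3
            obtain ⟨w', hw'⟩ := h3
            rw [← hw', ext_ap hU]
            cases o with
            | none => exact hn w'
            | some k =>
              refine ih w' (lt_of_le_of_ne (hj b w' hw'.symm) ?_) k
              rintro rfl
              exact hb hw'.symm
          rwa [this, add_zero] at h2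
      have h2 := Matrix.vecMul_injective_iff_isUnit.2 (D.unit M j)
        (a₁ := fun k => c (some k) w) (a₂ := 0) (by
          funext b
          have := h1 b
          simp only [Λ, ext_ap hU, Fintype.sum_option, hn, zero_mul, zero_add, M',
            Option.elim] at this
          simpa [Matrix.vecMul, dotProduct] using this)
      exact fun k => congrFun h2 k
  funext o w
  cases o with
  | none => exact hn w
  | some k => exact hs w k

end Sh

end Pool.Agent.H.MP_28b0d6_al
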